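import Pool.Agent.T9h76.EW.Top

/-! The words of the generating tree and the permutations of `Fin n`. -/

set_option autoImplicit false

namespace Pool.Agent.T9h76.EW

open Finset

/-- the words with letters `0, ..., n - 1` -/
def W (n : ℕ) : Finset (List ℕ) := (List.range n).permutations.toFinset

lemma mem_W {n : ℕ} {w : List ℕ} : w ∈ W n ↔ w.Perm (List.range n) := by
  unfold W
  rw [List.mem_toFinset, List.mem_permutations]

lemma card_W (n : ℕ) : (W n).card = n.factorial := by
  unfold W
  rw [List.toFinset_card_of_nodup (List.nodup_permutations _ List.nodup_range), List.length_permutations,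
    List.length_range]

lemma lt_of_mem_W {n : ℕ} {w : List ℕ} (h : w ∈ W n) : ∀ x ∈ w, x < n := by
  intro x hx
  exact List.mem_range.1 ((mem_W.1 h).subset hx)

lemma length_of_mem_W {n : ℕ} {w : List ℕ} (h : w ∈ W n) : w.length = n := by
  rw [(mem_W.1 h).length_eq, List.length_range]

lemma ins_perm {n s : ℕ} {l : List ℕ} : (ins s n l).Perm (n :: l) := by
  unfold ins
  refine List.perm_middle.trans ?_
  rw [List.take_append_drop]

lemma ins_mem {n s : ℕ} {l : List ℕ} (h : l ∈ W n) : ins s n l ∈ W (n + 1) := by
  rw [mem_W] at h ⊢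
  refine ins_perm.trans ((h.cons n).trans ?_)
  rw [List.range_succ]
  exact (List.perm_append_singleton n (List.range n)).symm

lemma ins_erase {n s : ℕ} {l : List ℕ} (h : n ∉ l) : (ins s n l).erase n = l := by
  unfold ins
  rw [List.erase_append_right _ (fun h' => h (List.mem_of_mem_take h')), List.erase_cons_head,
    List.take_append_drop]

lemma ins_idxOf {n s : ℕ} {l : List ℕ} (h : n ∉ l) (hs : s ≤ l.length) : (ins s n l).idxOf n = s := by
  unfold ins
  rw [List.idxOf_append_of_notMem (fun h' => h (List.mem_of_mem_take h')), List.idxOf_cons_self,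
    List.length_take]
  omega

lemma ins_back {n : ℕ} {w : List ℕ} (h : n ∈ w) : ins (w.idxOf n) n (w.erase n) = w := by
  induction w with
  | nil => simp at h
  | cons a w ih =>
    by_cases ha : a = n
    · subst ha
      rw [List.idxOf_cons_self, List.erase_cons_head]
      rfl
    · have hw : n ∈ w := by
        rcases List.mem_cons.1 h with h | h
        · exact absurd h.symm ha
        · exact h
      rw [List.idxOf_cons_ne _ ha, List.erase_cons_tail (by simpa using ha)]
      have := ih hw
      unfold ins at this ⊢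
      rw [List.take_succ_cons, List.drop_succ_cons, List.cons_append, this]

lemma sum_W (n : ℕ) (g : List ℕ → ℕ) :
    ∑ l ∈ W n, ∑ s ∈ range (n + 1), g (ins s n l) = ∑ w ∈ W (n + 1), g w := by
  rw [← Finset.sum_product']
  refine Finset.sum_nbij' (fun p => ins p.2 n p.1) (fun w => (w.erase n, w.idxOf n)) ?_ ?_ ?_ ?_ ?_
  · rintro ⟨l, s⟩ h
    rw [Finset.mem_product] at h
    exact ins_mem h.1
  · intro w hw
    have hn : n ∈ w := (mem_W.1 hw).symm.subset (List.mem_range.2 (Nat.lt_succ_self n))
    rw [Finset.mem_product, mem_W, Finset.mem_range]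
    constructor
    · have h1 := (mem_W.1 hw).erase n
      refine h1.trans ?_
      rw [List.range_succ, List.erase_append_right _ (by simp)]
      simp
    · rw [← length_of_mem_W hw]
      exact List.idxOf_lt_length_of_mem hn
  · rintro ⟨l, s⟩ h
    rw [Finset.mem_product, Finset.mem_range] at h
    have hn : n ∉ l := fun hn => lt_irrefl n (lt_of_mem_W h.1 n hn)
    have hs : s ≤ l.length := by rw [length_of_mem_W h.1]; omega
    show ((ins s n l).erase n, (ins s n l).idxOf n) = (l, s)
    rw [ins_erase hn, ins_idxOf hn hs]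
  · intro w hw
    have hn : n ∈ w := (mem_W.1 hw).symm.subset (List.mem_range.2 (Nat.lt_succ_self n))
    exact ins_back hn
  · rintro ⟨l, s⟩ _
    rfl

lemma sum_cnt (k : ℕ) : ∀ n, ∑ l ∈ W n, cnt k n l = ∑ l ∈ W (n + k), cnt 0 (n + k) l := by
  induction k with
  | zero => intro n; rfl
  | succ k ih =>
    intro n
    have h1 : ∑ l ∈ W n, cnt (k + 1) n l = ∑ l ∈ W n, ∑ s ∈ range (n + 1), cnt k (n + 1) (ins s n l) := by
      refine Finset.sum_congr rfl fun l hl => ?_
      rw [cnt, length_of_mem_W hl]
    rw [h1, sum_W n (fun w => cnt k (n + 1) w), ih (n + 1), show n + 1 + k = n + (k + 1) by omega]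

lemma W_zero : W 0 = {[]} := by
  ext w
  rw [mem_W, List.range_zero, List.perm_nil, Finset.mem_singleton]

open Classical in
lemma cnt_eq (n : ℕ) : cnt n 0 [] = ((W n).filter (fun w => ¬ C5 w)).card := by
  have h := sum_cnt n 0
  rw [W_zero, Finset.sum_singleton, Nat.zero_add] at h
  rw [h, Finset.card_filter]
  refine Finset.sum_congr rfl fun w _ => ?_
  rw [cnt]
  split_ifs <;> simp_all

/-- the word of a permutation -/
def wd {n : ℕ} (π : Equiv.Perm (Fin n)) : List ℕ := List.ofFn (fun i => (π i : ℕ))

lemma wd_mem {n : ℕ} (π : Equiv.Perm (Fin n)) : wd π ∈ W n := by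
  rw [mem_W]
  have h1 : List.ofFn (fun i : Fin n => (i : ℕ)) = List.range n := by
    apply List.ext_getElem
    · simp
    · intro i h1 h2
      simp
  rw [← h1]
  exact Equiv.Perm.ofFn_comp_perm π (fun i : Fin n => (i : ℕ))

lemma wd_inj {n : ℕ} {π ρ : Equiv.Perm (Fin n)} (h : wd π = wd ρ) : π = ρ := by
  unfold wd at h
  have h1 := List.ofFn_injective h
  ext i
  exact congrFun h1 i

open Classical in
lemma card_perm (n : ℕ) :
    ((Finset.univ : Finset (Equiv.Perm (Fin n))).filter (fun π => ¬ C5 (wd π))).card = cnt n 0 [] := by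
  rw [cnt_eq]
  have himg : (Finset.univ : Finset (Equiv.Perm (Fin n))).image wd = W n := by
    apply Finset.eq_of_subset_of_card_le
    · intro w hw
      rw [Finset.mem_image] at hw
      obtain ⟨π, _, rfl⟩ := hw
      exact wd_mem π
    · rw [card_W, Finset.card_image_of_injective _ (fun _ _ h => wd_inj h), Finset.card_univ,
        Fintype.card_perm, Fintype.card_fin]
  rw [← himg, Finset.filter_image, Finset.card_image_of_injective _ (fun _ _ h => wd_inj h)]

theorem cnt14 : cnt 14 0 [] % 2 = 1 := by
  have h := cnt_top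
  have e : (12 : ℕ) + 2 = 14 := rfl
  rw [G_top, e] at h
  rw [h]

open Classical in
/-- the number of permutations of length 14 without `24135` is odd -/
theorem odd_card : ((Finset.univ : Finset (Equiv.Perm (Fin 14))).filter (fun π => ¬ C5 (wd π))).card % 2 = 1 := by
  rw [card_perm]
  exact cnt14

end Pool.Agent.T9h76.EW
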