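import Pool.Agent.T9h76.EW.Rel

/-!
# Evaluation of the parity of the number of descendants in the generating tree
-/

set_option autoImplicit false

namespace Pool.Agent.T9h76.EW

/-- xor of `f c` over `c < n` -/
noncomputable def loop (n : ℕ) (f : ℕ → ℕ) : ℕ := Nat.rec (nat_lit 0) (fun c r => Nat.xor (f c) r) n

lemma loop_zero (f : ℕ → ℕ) : loop 0 f = 0 := rfl
lemma loop_succ (n : ℕ) (f : ℕ → ℕ) : loop (n + 1) f = f n ^^^ loop n f := rfl

lemma loop_mod (f : ℕ → ℕ) : ∀ n, loop n f % 2 = (∑ c ∈ Finset.range n, f c) % 2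
  | 0 => rfl
  | n + 1 => by
    rw [loop_succ, Nat.xor_mod_two_eq, Finset.sum_range_succ, add_comm (f n), Nat.add_mod, loop_mod f n,
      Nat.add_mod (∑ c ∈ Finset.range n, f c)]

lemma loop_congr {f g : ℕ → ℕ} : ∀ {n : ℕ}, (∀ c < n, f c = g c) → loop n f = loop n g
  | 0, _ => rfl
  | n + 1, h => by
    rw [loop_succ, loop_succ, h n (by omega), loop_congr (fun c hc => h c (by omega))]

/-- force the evaluation of the argument -/
noncomputable def force (n : ℕ) (f : ℕ → ℕ) : ℕ := Nat.rec (f (nat_lit 0)) (fun m _ => f (Nat.succ m)) n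

lemma force_eq (n : ℕ) (f : ℕ → ℕ) : force n f = f n := by cases n <;> rfl

/-- parity of the number of ones among the 256 lowest bits -/
def par (x : ℕ) : ℕ :=
  (fun a => (fun b => (fun c => (fun d => (fun e => (fun f => (fun g =>
   Nat.land (Nat.xor g (Nat.shiftRight g (nat_lit 1))) (nat_lit 1))
   (Nat.xor f (Nat.shiftRight f (nat_lit 2))))
   (Nat.xor e (Nat.shiftRight e (nat_lit 4))))
   (Nat.xor d (Nat.shiftRight d (nat_lit 8))))
   (Nat.xor c (Nat.shiftRight c (nat_lit 16))))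
   (Nat.xor b (Nat.shiftRight b (nat_lit 32))))
   (Nat.xor a (Nat.shiftRight a (nat_lit 64))))
   (Nat.xor x (Nat.shiftRight x (nat_lit 128)))

/-- number of ones among the `n` lowest bits -/
def ones (n x : ℕ) : ℕ := ∑ p ∈ Finset.range n, (x.testBit p).toNat

lemma ones_half (k x : ℕ) : ones (k + k) x % 2 = ones k (x ^^^ (x >>> k)) % 2 := by
  unfold ones
  rw [Finset.sum_range_add, ← Finset.sum_add_distrib, Finset.sum_nat_mod]
  congr 1
  refine Finset.sum_congr rfl fun p _ => ?_
  rw [Nat.testBit_xor, Nat.testBit_shiftRight]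
  cases x.testBit p <;> cases x.testBit (k + p) <;> rfl

lemma last_step (g : ℕ) :
    Nat.land (Nat.xor g (Nat.shiftRight g (nat_lit 1))) (nat_lit 1) = ones 2 g % 2 := by
  rw [show (2 : ℕ) = 1 + 1 by norm_num, ones_half]
  show (g ^^^ g >>> 1) &&& 1 = ones 1 (g ^^^ g >>> 1) % 2
  generalize g ^^^ g >>> 1 = y
  unfold ones
  rw [Finset.sum_range_one, Nat.and_one_is_mod, Nat.testBit_zero]
  rcases Nat.mod_two_eq_zero_or_one y with h | h <;> simp [h]

lemma par_eq (x : ℕ) : par x = ones 256 x % 2 := by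
  rw [show (256 : ℕ) = 128 + 128 by norm_num, ones_half]
  have h1 : par x = (fun a => (fun b => (fun c => (fun d => (fun e => (fun f => (fun g =>
   Nat.land (Nat.xor g (Nat.shiftRight g (nat_lit 1))) (nat_lit 1))
   (Nat.xor f (Nat.shiftRight f (nat_lit 2))))
   (Nat.xor e (Nat.shiftRight e (nat_lit 4))))
   (Nat.xor d (Nat.shiftRight d (nat_lit 8))))
   (Nat.xor c (Nat.shiftRight c (nat_lit 16))))
   (Nat.xor b (Nat.shiftRight b (nat_lit 32))))
   (Nat.xor a (Nat.shiftRight a (nat_lit 64)))) (x ^^^ x >>> 128) := rfl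
  rw [h1]
  generalize x ^^^ x >>> 128 = a
  rw [show (128 : ℕ) = 64 + 64 by norm_num, ones_half]
  show (fun b => (fun c => (fun d => (fun e => (fun f => (fun g =>
   Nat.land (Nat.xor g (Nat.shiftRight g (nat_lit 1))) (nat_lit 1))
   (Nat.xor f (Nat.shiftRight f (nat_lit 2))))
   (Nat.xor e (Nat.shiftRight e (nat_lit 4))))
   (Nat.xor d (Nat.shiftRight d (nat_lit 8))))
   (Nat.xor c (Nat.shiftRight c (nat_lit 16))))
   (Nat.xor b (Nat.shiftRight b (nat_lit 32)))) (a ^^^ a >>> 64) = _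
  generalize a ^^^ a >>> 64 = b
  rw [show (64 : ℕ) = 32 + 32 by norm_num, ones_half]
  show (fun c => (fun d => (fun e => (fun f => (fun g =>
   Nat.land (Nat.xor g (Nat.shiftRight g (nat_lit 1))) (nat_lit 1))
   (Nat.xor f (Nat.shiftRight f (nat_lit 2))))
   (Nat.xor e (Nat.shiftRight e (nat_lit 4))))
   (Nat.xor d (Nat.shiftRight d (nat_lit 8))))
   (Nat.xor c (Nat.shiftRight c (nat_lit 16)))) (b ^^^ b >>> 32) = _
  generalize b ^^^ b >>> 32 = c
  rw [show (32 : ℕ) = 16 + 16 by norm_num, ones_half]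
  show (fun d => (fun e => (fun f => (fun g =>
   Nat.land (Nat.xor g (Nat.shiftRight g (nat_lit 1))) (nat_lit 1))
   (Nat.xor f (Nat.shiftRight f (nat_lit 2))))
   (Nat.xor e (Nat.shiftRight e (nat_lit 4))))
   (Nat.xor d (Nat.shiftRight d (nat_lit 8)))) (c ^^^ c >>> 16) = _
  generalize c ^^^ c >>> 16 = d
  rw [show (16 : ℕ) = 8 + 8 by norm_num, ones_half]
  show (fun e => (fun f => (fun g =>
   Nat.land (Nat.xor g (Nat.shiftRight g (nat_lit 1))) (nat_lit 1))
   (Nat.xor f (Nat.shiftRight f (nat_lit 2))))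
   (Nat.xor e (Nat.shiftRight e (nat_lit 4)))) (d ^^^ d >>> 8) = _
  generalize d ^^^ d >>> 8 = e
  rw [show (8 : ℕ) = 4 + 4 by norm_num, ones_half]
  show (fun f => (fun g =>
   Nat.land (Nat.xor g (Nat.shiftRight g (nat_lit 1))) (nat_lit 1))
   (Nat.xor f (Nat.shiftRight f (nat_lit 2)))) (e ^^^ e >>> 4) = _
  generalize e ^^^ e >>> 4 = f
  rw [show (4 : ℕ) = 2 + 2 by norm_num, ones_half]
  show (fun g =>
   Nat.land (Nat.xor g (Nat.shiftRight g (nat_lit 1))) (nat_lit 1)) (f ^^^ f >>> 2) = _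
  generalize f ^^^ f >>> 2 = g
  exact last_step g

lemma par_lt (x : ℕ) : par x < 2 := by rw [par_eq]; exact Nat.mod_lt _ (by norm_num)

lemma xor_ones (n x y : ℕ) : ones n (x ^^^ y) % 2 = (ones n x + ones n y) % 2 := by
  unfold ones
  rw [← Finset.sum_add_distrib, eq_comm, Finset.sum_nat_mod]
  congr 1
  refine Finset.sum_congr rfl fun p _ => ?_
  rw [Nat.testBit_xor]
  cases x.testBit p <;> cases y.testBit p <;> rfl

lemma par_xor (x y : ℕ) : par (Nat.xor x y) = Nat.xor (par x) (par y) := by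
  rw [xor_eq, xor_eq, par_eq, par_eq, par_eq, xor_ones, Nat.add_mod]
  rcases Nat.mod_two_eq_zero_or_one (ones 256 x) with h | h <;>
    rcases Nat.mod_two_eq_zero_or_one (ones 256 y) with h' | h' <;> simp [h, h']

/-- the parity of the number of descendants `j + 2` levels below -/
noncomputable def G : ℕ → ℕ → ℕ → ℕ → ℕ
  | 0, _, _, T => par T
  | j + 1, K, D, T => loop (K + 1) (fun c =>
      G j (kap K T c) (childD D c (kap K T c)) (childT D T c (kap K T c)))

/-- fast version of `G 1` -/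
noncomputable def x3 (K D T n : ℕ) : ℕ :=
  Nat.rec (nat_lit 0) (fun c r => Nat.xor (childT D T c (kap K T c)) r) n

noncomputable def v3 (K D T n : ℕ) : ℕ := par (x3 K D T n)

noncomputable def v4 (K D T n : ℕ) : ℕ :=
  Nat.rec (nat_lit 0) (fun c r => Nat.xor
    (force (kap K T c) (fun k => force (childD D c k) (fun D' => force (childT D T c k)
      (fun T' => v3 k D' T' (Nat.succ k))))) r) n

noncomputable def v5 (K D T n : ℕ) : ℕ :=
  Nat.rec (nat_lit 0) (fun c r => Nat.xor
    (force (kap K T c) (fun k => force (childD D c k) (fun D' => force (childT D T c k)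
      (fun T' => v4 k D' T' (Nat.succ k))))) r) n

lemma v3_loop (K D T : ℕ) : ∀ n, v3 K D T n = loop n (fun c => par (childT D T c (kap K T c)))
  | 0 => by
    show par 0 = 0
    rw [par_eq]
    simp [ones]
  | n + 1 => by
    rw [loop_succ, ← v3_loop K D T n]
    have h1 : v3 K D T (n + 1) = par (Nat.xor (childT D T n (kap K T n)) (x3 K D T n)) := rfl
    rw [h1, par_xor, xor_eq, v3]

lemma v3_eq (K D T : ℕ) : v3 K D T (Nat.succ K) = G 1 K D T := v3_loop K D T (K + 1)

lemma v4_loop (K D T : ℕ) : ∀ n, v4 K D T n = loop n (fun c =>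
    G 1 (kap K T c) (childD D c (kap K T c)) (childT D T c (kap K T c)))
  | 0 => rfl
  | n + 1 => by
    rw [loop_succ, ← v4_loop K D T n]
    show Nat.xor (force (kap K T n) (fun k => force (childD D n k) (fun D' => force (childT D T n k)
      (fun T' => v3 k D' T' (Nat.succ k))))) (v4 K D T n) = _
    rw [force_eq, force_eq, force_eq, v3_eq]
    rfl

lemma v4_eq (K D T : ℕ) : v4 K D T (Nat.succ K) = G 2 K D T := v4_loop K D T (K + 1)

lemma v5_loop (K D T : ℕ) : ∀ n, v5 K D T n = loop n (fun c =>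
    G 2 (kap K T c) (childD D c (kap K T c)) (childT D T c (kap K T c)))
  | 0 => rfl
  | n + 1 => by
    rw [loop_succ, ← v5_loop K D T n]
    show Nat.xor (force (kap K T n) (fun k => force (childD D n k) (fun D' => force (childT D T n k)
      (fun T' => v4 k D' T' (Nat.succ k))))) (v5 K D T n) = _
    rw [force_eq, force_eq, force_eq, v4_eq]
    rfl

lemma v5_eq (K D T : ℕ) : v5 K D T (Nat.succ K) = G 3 K D T := v5_loop K D T (K + 1)

end Pool.Agent.T9h76.EW
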