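import Pool.Agent.T9h76.EW.C01
import Pool.Agent.T9h76.EW.C02
import Pool.Agent.T9h76.EW.C03
import Pool.Agent.T9h76.EW.C04
import Pool.Agent.T9h76.EW.C05
import Pool.Agent.T9h76.EW.C06
import Pool.Agent.T9h76.EW.C07
import Pool.Agent.T9h76.EW.C08
import Pool.Agent.T9h76.EW.C09
import Pool.Agent.T9h76.EW.C10
import Pool.Agent.T9h76.EW.C11
import Pool.Agent.T9h76.EW.C12

/-! The codes of level 9 of the generating tree, modulo 2. -/

set_option autoImplicit false
set_option maxRecDepth 100000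

namespace Pool.Agent.T9h76.EW

/-- the codes of level 9 -/
def C : List ℕ := C01 ++ (C02 ++ (C03 ++ (C04 ++ (C05 ++ (C06 ++ (C07 ++ (C08 ++ (C09 ++ (C10 ++ (C11 ++ (C12)))))))))))

theorem lvl9 : leq (lvl (lvl (lvl (lvl (lvl (lvl (lvl (lvl (lvl [nat_lit 0]))))))))) C = true := by
  decide +kernel

end Pool.Agent.T9h76.EW
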