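import Pool.Agent.T9h76.EW.Eval

/-!
# The parity of the number of descendants of a word
-/

set_option autoImplicit false

namespace Pool.Agent.T9h76.EW

lemma cnt_step {l : List ℕ} {K Dn Tn m : ℕ} (h : R l K Dn Tn) (hl : ∀ x ∈ l, x < m) (k : ℕ) :
    cnt (k + 1) m l = ∑ s ∈ Finset.range (K + 1), cnt k (m + 1) (ins s m l) := by
  rw [cnt]
  symm
  apply Finset.sum_subset
  · intro s hs
    rw [Finset.mem_range] at hs ⊢
    have := h.hK
    omega
  · intro s hs hs'
    rw [Finset.mem_range] at hs hs'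
    apply cnt_zero_of_C5 _ _ _ (lt_ins hl)
    rw [C5_ins' hl]
    right
    rw [h.hC s (by omega)]
    omega

lemma C5_child {l : List ℕ} {K Dn Tn m : ℕ} (h : R l K Dn Tn) (hl : ∀ x ∈ l, x < m) (h5 : ¬ C5 l)
    {s : ℕ} (hs : s ≤ K) : ¬ C5 (ins s m l) := by
  rw [C5_ins' hl]
  rintro (h1 | h1)
  · exact h5 h1
  · rw [h.hC s (hs.trans h.hK)] at h1
    omega

lemma cnt_one {l : List ℕ} {K Dn Tn m : ℕ} (h : R l K Dn Tn) (hl : ∀ x ∈ l, x < m) (h5 : ¬ C5 l) :
    cnt 1 m l = K + 1 := by
  rw [cnt_step h hl]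
  rw [Finset.sum_congr rfl (g := fun _ => 1)]
  · simp
  · intro s hs
    rw [Finset.mem_range] at hs
    rw [cnt, if_neg (C5_child h hl h5 (by omega))]

lemma sum_grid (f : ℕ → ℕ) (b : ℕ) : ∀ a, ∑ p ∈ Finset.range (a * b), f p =
    ∑ j ∈ Finset.range a, ∑ i ∈ Finset.range b, f (b * j + i)
  | 0 => by simp
  | a + 1 => by
    rw [Nat.add_mul, one_mul, Finset.sum_range_add, sum_grid f b a, Finset.sum_range_succ]
    congr 1
    refine Finset.sum_congr rfl fun i _ => ?_
    rw [Nat.mul_comm a b]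

lemma ones_T {l : List ℕ} {K Dn Tn : ℕ} (h : R l K Dn Tn) (hK : K ≤ 14) :
    ones 256 Tn = ∑ j ∈ Finset.range (K + 1), (K + 1 - kap K Tn j) := by
  unfold ones
  rw [show (256 : ℕ) = 16 * 16 by norm_num, sum_grid]
  symm
  apply Finset.sum_subset_zero_on_sdiff
  · intro s hs
    rw [Finset.mem_range] at hs ⊢
    omega
  · intro j hj
    rw [Finset.mem_sdiff, Finset.mem_range, Finset.mem_range] at hj
    refine Finset.sum_eq_zero fun i hi => ?_
    rw [Finset.mem_range] at hi
    have h1 := h.hT (16 * j + i)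
    rw [show (16 * j + i) / 16 = j by omega] at h1
    have h2 : Tn.testBit (16 * j + i) = false := by
      by_contra hcon
      rw [Bool.not_eq_false] at hcon
      have := (h1.1 hcon).1
      omega
    rw [h2]
    rfl
  · intro j hj
    rw [Finset.mem_range] at hj
    obtain ⟨h1, h2, h3⟩ := kap_spec h hK (show j ≤ K by omega)
    have h4 : ∀ i ∈ Finset.range 16, (Tn.testBit (16 * j + i)).toNat =
        if i ∈ Finset.Ico (kap K Tn j) (K + 1) then 1 else 0 := by
      intro i hi
      rw [Finset.mem_range] at hi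
      have h5 := h.hT (16 * j + i)
      rw [show (16 * j + i) / 16 = j by omega, show (16 * j + i) % 16 = i by omega] at h5
      by_cases h6 : kap K Tn j ≤ i ∧ i < K + 1
      · rw [if_pos (Finset.mem_Ico.2 h6), h5.2 ⟨by omega, by omega, (h3 i (by omega)).2 h6.1⟩]
        rfl
      · rw [if_neg (fun h7 => h6 (Finset.mem_Ico.1 h7))]
        have h7 : Tn.testBit (16 * j + i) = false := by
          by_contra hcon
          rw [Bool.not_eq_false] at hcon
          obtain ⟨h8, h9, h10⟩ := h5.1 hcon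
          exact h6 ⟨(h3 i h9).1 h10, by omega⟩
        rw [h7]
        rfl
    rw [Finset.sum_congr rfl h4, Finset.sum_ite_mem, Finset.sum_const, smul_eq_mul, mul_one]
    rw [Finset.inter_eq_right.2, Nat.card_Ico]
    intro i hi
    rw [Finset.mem_Ico] at hi
    rw [Finset.mem_range]
    omega

lemma cnt_two {l : List ℕ} {K Dn Tn m : ℕ} (h : R l K Dn Tn) (hK : K ≤ 14) (hl : ∀ x ∈ l, x < m)
    (h5 : ¬ C5 l) : cnt 2 m l % 2 = par Tn := by
  rw [cnt_step h hl, par_eq, ones_T h hK]
  have h1 : ∀ s ∈ Finset.range (K + 1), cnt 1 (m + 1) (ins s m l) = kap K Tn s + 1 := by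
    intro s hs
    rw [Finset.mem_range] at hs
    exact cnt_one (R_child h hK (by omega) hl) (lt_ins hl) (C5_child h hl h5 (by omega))
  rw [Finset.sum_congr rfl h1]
  have h2 : ∑ s ∈ Finset.range (K + 1), (kap K Tn s + 1) + ∑ s ∈ Finset.range (K + 1), (K + 1 - kap K Tn s)
      = (K + 1) * (K + 2) := by
    rw [← Finset.sum_add_distrib, Finset.sum_congr rfl (g := fun _ => K + 2)]
    · simp
    · intro s hs
      rw [Finset.mem_range] at hs
      have := (kap_spec h hK (show s ≤ K by omega)).2.1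
      omega
  have h3 : (K + 1) * (K + 2) % 2 = 0 := by
    rcases Nat.even_or_odd K with ⟨r, hr⟩ | ⟨r, hr⟩
    · subst hr
      have : (r + r + 1) * (r + r + 2) = 2 * ((r + r + 1) * (r + 1)) := by ring
      omega
    · subst hr
      have : (2 * r + 1 + 1) * (2 * r + 1 + 2) = 2 * ((r + 1) * (2 * r + 1 + 2)) := by ring
      omega
  omega

/-- the main relation -/
theorem cnt_mod : ∀ (j : ℕ) {l : List ℕ} {K Dn Tn m : ℕ}, R l K Dn Tn → K + j ≤ 14 →
    (∀ x ∈ l, x < m) → ¬ C5 l → cnt (j + 2) m l % 2 = G j K Dn Tn % 2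
  | 0, l, K, Dn, Tn, m, h, hK, hl, h5 => by
    rw [cnt_two h hK hl h5]
    show par Tn = par Tn % 2
    rw [Nat.mod_eq_of_lt (par_lt _)]
  | j + 1, l, K, Dn, Tn, m, h, hK, hl, h5 => by
    rw [show j + 1 + 2 = (j + 2) + 1 by ring, cnt_step h hl, G, loop_mod, Finset.sum_nat_mod]
    conv_rhs => rw [Finset.sum_nat_mod]
    congr 1
    refine Finset.sum_congr rfl fun s hs => ?_
    rw [Finset.mem_range] at hs
    have h1 := kap_spec h (show K ≤ 14 by omega) (show s ≤ K by omega)
    exact cnt_mod j (R_child h (by omega) (by omega) hl) (by omega) (lt_ins hl)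
      (C5_child h hl h5 (by omega))

lemma R_nil : R [] 0 0 0 := by
  refine ⟨le_rfl, ?_, ?_, ?_⟩
  · intro i hi
    simp only [List.length_nil, Nat.le_zero] at hi
    subst hi
    constructor
    · rintro ⟨a, b, c, d, h, _⟩
      simp at h
    · intro h; omega
  · intro p
    constructor
    · intro h; simp at h
    · rintro ⟨_, _, a, ha, _⟩
      simp at ha
  · intro p
    constructor
    · intro h; simp at h
    · rintro ⟨_, _, a, ha, _⟩
      simp at ha

lemma not_C5_nil : ¬ C5 [] := by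
  rintro ⟨a, b, c, d, e, h, _⟩
  simp at h

theorem cnt_top : cnt (12 + 2) 0 [] % 2 = G 12 0 0 0 % 2 :=
  cnt_mod 12 R_nil (by norm_num) (by simp) not_C5_nil

end Pool.Agent.T9h76.EW
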