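import Pool.Agent.T9h76.EW.Tree

/-!
# Bit matrices for the generating tree

A state is a number `k` of active gaps (minus one) and two 16 x 16 bit matrices `D`, `T` (rows `j`,
columns `i`, bit `16 j + i`), coded as one natural number.
-/

set_option autoImplicit false

namespace Pool.Agent.T9h76.EW

def REP : ℕ := nat_lit 1766874025136433896750911497805568136923323180981774075523881651146915841
def STAIR : ℕ := nat_lit 883443752709152534561174752006055599037215768467636211011841733789810686
def M256 : ℕ := nat_lit 115792089237316195423570985008687907853269984665640564039457584007913129639935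

def sh4 (c : ℕ) : ℕ := Nat.shiftLeft c (nat_lit 4)
def lowm (c : ℕ) : ℕ := Nat.mul (Nat.sub (Nat.shiftLeft (nat_lit 2) c) (nat_lit 1)) REP
def highm (c : ℕ) : ℕ := Nat.mul (Nat.sub (nat_lit 65536) (Nat.shiftLeft (nat_lit 1) c)) REP
def rowsm (c : ℕ) : ℕ := Nat.sub (Nat.shiftLeft (nat_lit 65536) (sh4 c)) (nat_lit 1)
def maskm (k : ℕ) : ℕ := Nat.land (Nat.land (lowm k) (rowsm k)) M256

def kap (K T c : ℕ) : ℕ :=
  Nat.log2 (Nat.succ (Nat.xor (Nat.sub (Nat.shiftLeft (nat_lit 2) K) (nat_lit 1))
    (Nat.land (Nat.shiftRight T (sh4 c)) (nat_lit 65535))))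

def childT (D T c k : ℕ) : ℕ :=
  Nat.land (Nat.lor (Nat.land (Nat.lor (Nat.lor (Nat.land T (lowm c)) (Nat.shiftLeft (Nat.land T (highm c)) (nat_lit 1)))
     (Nat.mul (Nat.land (Nat.shiftRight D c) REP) (Nat.sub (nat_lit 65536) (Nat.shiftLeft (nat_lit 2) c)))) (rowsm c))
   (Nat.shiftLeft (Nat.shiftRight T (sh4 c)) (Nat.add (sh4 (Nat.succ c)) (nat_lit 1))))
   (maskm k)

def childD (D c k : ℕ) : ℕ :=
  Nat.land (Nat.lor (Nat.land (Nat.lor (Nat.land D (lowm c)) (Nat.shiftLeft (Nat.land D (highm c)) (nat_lit 1))) (rowsm c))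
     (Nat.shiftLeft (Nat.shiftRight STAIR (sh4 (Nat.succ c))) (sh4 (Nat.succ c))))
   (maskm k)

def gD (s : ℕ) : ℕ := Nat.land s M256
def gT (s : ℕ) : ℕ := Nat.land (Nat.shiftRight s (nat_lit 256)) M256
def gK (s : ℕ) : ℕ := Nat.shiftRight s (nat_lit 512)
def mk (k D T : ℕ) : ℕ := Nat.add (Nat.shiftLeft (Nat.add (Nat.shiftLeft k (nat_lit 256)) T) (nat_lit 256)) D

/-! ### unfolding the operations -/

lemma land_eq (x y : ℕ) : Nat.land x y = x &&& y := rfl
lemma lor_eq (x y : ℕ) : Nat.lor x y = x ||| y := rfl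
lemma xor_eq (x y : ℕ) : Nat.xor x y = x ^^^ y := rfl
lemma shl_eq (x y : ℕ) : Nat.shiftLeft x y = x <<< y := rfl
lemma shr_eq (x y : ℕ) : Nat.shiftRight x y = x >>> y := rfl
lemma mul_eq' (x y : ℕ) : Nat.mul x y = x * y := rfl
lemma sub_eq' (x y : ℕ) : Nat.sub x y = x - y := rfl
lemma add_eq' (x y : ℕ) : Nat.add x y = x + y := rfl

lemma sh4_eq (c : ℕ) : sh4 c = 16 * c := by
  unfold sh4
  rw [shl_eq, Nat.shiftLeft_eq]
  show c * 2 ^ 4 = 16 * c
  ring

/-! ### bits of the constants -/

lemma M256_eq : M256 = 2 ^ 256 - 1 := by decide +kernel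

lemma bit_M256 (p : ℕ) : M256.testBit p = decide (p < 256) := by
  rw [M256_eq, Nat.testBit_two_pow_sub_one]

lemma ext_bits {x : ℕ} {f : ℕ → Bool} (hx : x < 2 ^ 256)
    (h : ∀ p < 256, x.testBit p = f p) (p : ℕ) : x.testBit p = (decide (p < 256) && f p) := by
  by_cases hp : p < 256
  · simp [hp, h p hp]
  · have : x.testBit p = false := Nat.testBit_lt_two_pow (lt_of_lt_of_le hx (Nat.pow_le_pow_right (by norm_num) (by omega)))
    simp [hp, this]

lemma bit_REP (p : ℕ) : REP.testBit p = (decide (p < 256) && decide (p % 16 = 0)) :=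
  ext_bits (f := fun p => decide (p % 16 = 0)) (by decide +kernel) (by decide +kernel) p

lemma bit_STAIR (p : ℕ) : STAIR.testBit p = (decide (p < 256) && decide (p / 16 < p % 16)) :=
  ext_bits (f := fun p => decide (p / 16 < p % 16)) (by decide +kernel) (by decide +kernel) p

lemma lowm_aux : ∀ c < 16, (lowm c < 2 ^ 256 ∧ ∀ p < 256, (lowm c).testBit p = decide (p % 16 ≤ c)) := by
  decide +kernel

lemma highm_aux : ∀ c < 16, (highm c < 2 ^ 256 ∧ ∀ p < 256, (highm c).testBit p = decide (c ≤ p % 16)) := by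
  decide +kernel

lemma bit_lowm {c : ℕ} (hc : c < 16) (p : ℕ) :
    (lowm c).testBit p = (decide (p < 256) && decide (p % 16 ≤ c)) :=
  ext_bits (f := fun p => decide (p % 16 ≤ c)) (lowm_aux c hc).1 (lowm_aux c hc).2 p

lemma bit_highm {c : ℕ} (hc : c < 16) (p : ℕ) :
    (highm c).testBit p = (decide (p < 256) && decide (c ≤ p % 16)) :=
  ext_bits (f := fun p => decide (c ≤ p % 16)) (highm_aux c hc).1 (highm_aux c hc).2 p

lemma rowsm_eq (c : ℕ) : rowsm c = 2 ^ (16 * c + 16) - 1 := by
  unfold rowsm
  rw [shl_eq, Nat.shiftLeft_eq, sh4_eq, sub_eq']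
  show 65536 * 2 ^ (16 * c) - 1 = _
  congr 1
  rw [show (65536 : ℕ) = 2 ^ 16 by norm_num, ← pow_add]
  congr 1
  omega

lemma bit_rowsm (c p : ℕ) : (rowsm c).testBit p = decide (p < 16 * c + 16) := by
  rw [rowsm_eq, Nat.testBit_two_pow_sub_one]

lemma bit_maskm {k : ℕ} (hk : k < 16) (p : ℕ) :
    (maskm k).testBit p = (decide (p / 16 ≤ k) && decide (p % 16 ≤ k)) := by
  unfold maskm
  rw [land_eq, land_eq, Nat.testBit_and, Nat.testBit_and, bit_lowm hk, bit_rowsm, bit_M256]
  by_cases h1 : p / 16 ≤ k
  · have h2 : p < 256 := by omega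
    have h3 : p < 16 * k + 16 := by omega
    simp [h1, h2, h3]
  · have h3 : ¬ p < 16 * k + 16 := by omega
    simp [h1, h3]

/-- broadcasting column bits -/
lemma bit_bcast : ∀ (x m : ℕ), m < 65536 → (∀ p, x.testBit p = true → p % 16 = 0) → ∀ p,
    (x * m).testBit p = (x.testBit (16 * (p / 16)) && m.testBit (p % 16)) := by
  intro x
  induction x using Nat.strong_induction_on with
  | _ x ih =>
    intro m hm hx p
    rcases Nat.eq_zero_or_pos x with rfl | hx0
    · simp
    · set q := x / 65536 with hq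
      set r := x % 65536 with hr
      have hxqr : x = 2 ^ 16 * q + r := by
        have := Nat.div_add_mod x 65536
        norm_num; omega
      have hr' : r = if x.testBit 0 then 1 else 0 := by
        apply Nat.eq_of_testBit_eq
        intro i
        have h1 : r.testBit i = (decide (i < 16) && x.testBit i) := by
          rw [hr, show (65536 : ℕ) = 2 ^ 16 by norm_num, Nat.testBit_mod_two_pow]
        rw [h1]
        by_cases hi : i = 0
        · subst hi
          by_cases h0 : x.testBit 0 = true
          · rw [if_pos h0, h0]; simp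
          · rw [if_neg h0]; simp at h0; simp [h0]
        · have h2 : (decide (i < 16) && x.testBit i) = false := by
            by_cases hi16 : i < 16
            · by_contra hcon
              simp only [hi16, decide_true, Bool.true_and, Bool.not_eq_false] at hcon
              have := hx i hcon
              omega
            · simp [hi16]
          rw [h2]
          split_ifs
          · exact (Nat.testBit_lt_two_pow (Nat.one_lt_two_pow hi)).symm
          · simp
      have hr1 : r ≤ 1 := by rw [hr']; split_ifs <;> norm_num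
      have hrm : r * m < 2 ^ 16 := by
        calc r * m ≤ 1 * m := Nat.mul_le_mul_right _ hr1
          _ < 2 ^ 16 := by norm_num; omega
      have hqx : q < x := Nat.div_lt_self hx0 (by norm_num)
      have hqb : ∀ p, q.testBit p = x.testBit (p + 16) := by
        intro p
        rw [hq, show (65536 : ℕ) = 2 ^ 16 by norm_num, Nat.testBit_div_two_pow]
      have h3 : x * m = 2 ^ 16 * (q * m) + r * m := by
        conv_lhs => rw [hxqr]
        ring
      rw [h3, Nat.testBit_two_pow_mul_add _ hrm]
      by_cases hp : p < 16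
      · rw [if_pos hp, show 16 * (p / 16) = 0 by omega, show p % 16 = p by omega, hr']
        split_ifs with h0
        · rw [one_mul, h0, Bool.true_and]
        · simp at h0; simp [h0]
      · rw [if_neg hp, ih q hqx m hm (by
          intro p hp'
          rw [hqb] at hp'
          have := hx _ hp'
          omega), hqb]
        congr 2 <;> omega

lemma bit_sub_shift : ∀ c < 16, ∀ i < 16, (65536 - 2 <<< c).testBit i = decide (c < i) := by
  decide +kernel

end Pool.Agent.T9h76.EW
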