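import Pool.Agent.T9h76.EW.Main

/-!
# Levels of the generating tree as lists of codes, normalised modulo 2
-/

set_option autoImplicit false

namespace Pool.Agent.T9h76.EW

/-- the parity for a code -/
noncomputable def GC (j s : ℕ) : ℕ := G j (gK s) (gD s) (gT s)

/-- xor of the parities over a list of codes -/
noncomputable def X (j : ℕ) : List ℕ → ℕ
  | [] => 0
  | s :: L => GC j s ^^^ X j L

lemma X_append (j : ℕ) : ∀ A B : List ℕ, X j (A ++ B) = X j A ^^^ X j B
  | [], B => by simp [X]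
  | s :: A, B => by rw [List.cons_append, X, X, X_append j A B, Nat.xor_assoc]

/-- the code of a child -/
def ch (K D T c : ℕ) : ℕ := mk (kap K T c) (childD D c (kap K T c)) (childT D T c (kap K T c))

lemma maskm_lt (k : ℕ) : maskm k < 2 ^ 256 := by
  unfold maskm
  rw [land_eq, land_eq]
  exact Nat.and_lt_two_pow _ (by decide +kernel)

lemma childD_lt (D c k : ℕ) : childD D c k < 2 ^ 256 := by
  unfold childD
  rw [land_eq _ (maskm k)]
  exact Nat.and_lt_two_pow _ (maskm_lt k)

lemma childT_lt (D T c k : ℕ) : childT D T c k < 2 ^ 256 := by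
  unfold childT
  rw [land_eq _ (maskm k)]
  exact Nat.and_lt_two_pow _ (maskm_lt k)

lemma mk_eq (k D T : ℕ) : mk k D T = 2 ^ 256 * (2 ^ 256 * k + T) + D := by
  unfold mk
  rw [shl_eq, shl_eq, add_eq', add_eq', Nat.shiftLeft_eq, Nat.shiftLeft_eq]
  show (k * 2 ^ 256 + T) * 2 ^ 256 + D = _
  ring

lemma gD_mk {k D T : ℕ} (hD : D < 2 ^ 256) : gD (mk k D T) = D := by
  unfold gD
  rw [mk_eq, M256_eq, land_eq, Nat.and_two_pow_sub_one_eq_mod, Nat.mul_add_mod, Nat.mod_eq_of_lt hD]

lemma gT_mk {k D T : ℕ} (hD : D < 2 ^ 256) (hT : T < 2 ^ 256) : gT (mk k D T) = T := by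
  unfold gT
  rw [mk_eq, M256_eq, land_eq, Nat.and_two_pow_sub_one_eq_mod, shr_eq, Nat.shiftRight_eq_div_pow]
  show (2 ^ 256 * (2 ^ 256 * k + T) + D) / 2 ^ 256 % 2 ^ 256 = T
  rw [Nat.mul_add_div (by positivity), Nat.div_eq_of_lt hD, add_zero, Nat.mul_add_mod, Nat.mod_eq_of_lt hT]

lemma gK_mk {k D T : ℕ} (hD : D < 2 ^ 256) (hT : T < 2 ^ 256) : gK (mk k D T) = k := by
  unfold gK
  rw [mk_eq, shr_eq, show (nat_lit 512 : ℕ) = 256 + 256 from rfl, Nat.shiftRight_add,
    Nat.shiftRight_eq_div_pow, Nat.shiftRight_eq_div_pow, Nat.mul_add_div (by positivity), Nat.div_eq_of_lt hD, add_zero,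
    Nat.mul_add_div (by positivity), Nat.div_eq_of_lt hT, add_zero]

lemma GC_ch (j K D T c : ℕ) : GC j (ch K D T c) =
    G j (kap K T c) (childD D c (kap K T c)) (childT D T c (kap K T c)) := by
  unfold GC ch
  rw [gK_mk (childD_lt _ _ _) (childT_lt _ _ _ _), gD_mk (childD_lt _ _ _),
    gT_mk (childD_lt _ _ _) (childT_lt _ _ _ _)]

/-- xor over a list of lists -/
noncomputable def XX (j : ℕ) : List (List ℕ) → ℕ
  | [] => 0
  | L :: LL => X j L ^^^ XX j LL

/-- add the children below the gap `n` as singletons -/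
noncomputable def chS (K D T n : ℕ) (r : List (List ℕ)) : List (List ℕ) :=
  Nat.rec r (fun c r' => force' (ch K D T c) :: r') n
where force' (n : ℕ) : List ℕ := Nat.rec [nat_lit 0] (fun m _ => [Nat.succ m]) n

lemma force'_eq (n : ℕ) : chS.force' n = [n] := by cases n <;> rfl

lemma XX_chS (j K D T : ℕ) (r : List (List ℕ)) : ∀ n, XX j (chS K D T n r) =
    loop n (fun c => G j (kap K T c) (childD D c (kap K T c)) (childT D T c (kap K T c))) ^^^ XX j r
  | 0 => by
    show XX j r = 0 ^^^ XX j r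
    rw [Nat.zero_xor]
  | n + 1 => by
    show X j (chS.force' (ch K D T n)) ^^^ XX j (chS K D T n r) = _
    rw [force'_eq, XX_chS j K D T r n, loop_succ, X, X, Nat.xor_zero, GC_ch, Nat.xor_assoc]

/-- all children of a list of codes, as singletons -/
noncomputable def nxt (L : List ℕ) : List (List ℕ) :=
  List.rec [] (fun s _ r => chS (gK s) (gD s) (gT s) (Nat.succ (gK s)) r) L

lemma XX_nxt (j : ℕ) : ∀ L : List ℕ, XX j (nxt L) = X (j + 1) L
  | [] => rfl
  | s :: L => by
    show XX j (chS (gK s) (gD s) (gT s) (Nat.succ (gK s)) (nxt L)) = _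
    rw [XX_chS, XX_nxt j L]
    rfl

/-- merging with cancellation -/
noncomputable def mrg (f : ℕ) : List ℕ → List ℕ → List ℕ :=
  Nat.rec (fun a b => a ++ b)
    (fun _ ih a b => List.rec b (fun x a' _ => List.rec (x :: a')
      (fun y b' _ => cond (Nat.ble x y) (cond (Nat.ble y x) (ih a' b') (x :: ih a' (y :: b')))
        (y :: ih (x :: a') b')) b) a) f

lemma X_mrg (j : ℕ) : ∀ (f : ℕ) (a b : List ℕ), X j (mrg f a b) = X j a ^^^ X j b
  | 0, a, b => X_append j a b
  | f + 1, [], b => by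
    show X j b = 0 ^^^ X j b
    rw [Nat.zero_xor]
  | f + 1, x :: a, [] => by
    show X j (x :: a) = X j (x :: a) ^^^ 0
    rw [Nat.xor_zero]
  | f + 1, x :: a, y :: b => by
    show X j (cond (Nat.ble x y) (cond (Nat.ble y x) (mrg f a b) (x :: mrg f a (y :: b)))
        (y :: mrg f (x :: a) b)) = _
    cases h1 : Nat.ble x y with
    | false =>
      rw [cond_false, X, X_mrg j f, X, X]
      rw [← Nat.xor_assoc, ← Nat.xor_assoc, ← Nat.xor_assoc, Nat.xor_comm (GC j y) (GC j x),
        Nat.xor_assoc (GC j x), Nat.xor_comm (GC j y), ← Nat.xor_assoc]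
    | true =>
      cases h2 : Nat.ble y x with
      | false =>
        rw [cond_true, cond_false, X, X_mrg j f, X, X]
        simp only [Nat.xor_assoc]
      | true =>
        have h3 : x = y := le_antisymm (Nat.le_of_ble_eq_true h1) (Nat.le_of_ble_eq_true h2)
        subst h3
        rw [cond_true, cond_true, X_mrg j f, X, X, Nat.xor_comm (GC j x) (X j a), Nat.xor_assoc,
          ← Nat.xor_assoc (GC j x), Nat.xor_self, Nat.zero_xor]

/-- merging of the lists by pairs -/
noncomputable def mp (f : ℕ) : ℕ → List (List ℕ) → List (List ℕ) := fun g => Nat.rec (fun L => L)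
    (fun _ ih L => List.rec [] (fun a L' _ => List.rec [a] (fun b L'' _ => mrg f a b :: ih L'') L') L) g

lemma XX_mp (j f : ℕ) : ∀ (g : ℕ) (L : List (List ℕ)), XX j (mp f g L) = XX j L
  | 0, L => rfl
  | g + 1, [] => rfl
  | g + 1, [a] => rfl
  | g + 1, a :: b :: L => by
    show X j (mrg f a b) ^^^ XX j (mp f g L) = X j a ^^^ (X j b ^^^ XX j L)
    rw [X_mrg, XX_mp j f g L, Nat.xor_assoc]

/-- iterated merging -/
noncomputable def mpn (f : ℕ) (k : ℕ) : List (List ℕ) → List (List ℕ) :=
  Nat.rec (fun L => L) (fun _ ih L => ih (mp f f L)) k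

lemma XX_mpn (j f : ℕ) : ∀ (k : ℕ) (L : List (List ℕ)), XX j (mpn f k L) = XX j L
  | 0, L => rfl
  | k + 1, L => by
    show XX j (mpn f k (mp f f L)) = _
    rw [XX_mpn j f k, XX_mp]

/-- concatenation -/
noncomputable def cct : List (List ℕ) → List ℕ := fun L => List.rec [] (fun a _ r => a ++ r) L

lemma X_cct (j : ℕ) : ∀ L : List (List ℕ), X j (cct L) = XX j L
  | [] => rfl
  | a :: L => by
    show X j (a ++ cct L) = _
    rw [X_append, X_cct j L]
    rfl

/-- one level -/
noncomputable def lvl (L : List ℕ) : List ℕ := cct (mpn (nat_lit 100000) (nat_lit 15) (nxt L))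

lemma X_lvl (j : ℕ) (L : List ℕ) : X j (lvl L) = X (j + 1) L := by
  unfold lvl
  rw [X_cct, XX_mpn, XX_nxt]

/-- equality of lists -/
noncomputable def leq (a : List ℕ) : List ℕ → Bool :=
  List.rec (fun b => List.rec true (fun _ _ _ => false) b)
    (fun x _ ih b => List.rec false (fun y b' _ => cond (Nat.beq x y) (ih b') false) b) a

lemma eq_of_leq : ∀ {a b : List ℕ}, leq a b = true → a = b
  | [], [], _ => rfl
  | [], _ :: _, h => by cases h
  | _ :: _, [], h => by cases h
  | x :: a, y :: b, h => by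
    change cond (Nat.beq x y) (leq a b) false = true at h
    cases h1 : Nat.beq x y with
    | false => rw [h1] at h; cases h
    | true =>
      rw [h1, cond_true] at h
      rw [Nat.eq_of_beq_eq_true h1, eq_of_leq h]

/-- fast evaluation of `X 3` -/
noncomputable def w3 (s : ℕ) : ℕ := force (gK s) (fun K => force (gD s) (fun D => force (gT s)
  (fun T => v5 K D T (Nat.succ K))))

lemma w3_eq (s : ℕ) : w3 s = GC 3 s := by
  unfold w3
  rw [force_eq, force_eq, force_eq, v5_eq]
  rfl

noncomputable def X3 (L : List ℕ) : ℕ := List.rec (nat_lit 0) (fun s _ r => Nat.xor (w3 s) r) L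

lemma X3_eq : ∀ L : List ℕ, X3 L = X 3 L
  | [] => rfl
  | s :: L => by
    show Nat.xor (w3 s) (X3 L) = _
    rw [w3_eq, X3_eq L]
    rfl

end Pool.Agent.T9h76.EW
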