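import Pool.Agent.T9h76.EW.Mat

/-!
# The state of a word, and its change under insertion
-/

set_option autoImplicit false

namespace Pool.Agent.T9h76.EW

/-- the state `(K, D, T)` describes the word `l` -/
structure R (l : List ℕ) (K Dn Tn : ℕ) : Prop where
  hK : K ≤ l.length
  hC : ∀ i, i ≤ l.length → (C4 (l.take i) ↔ K < i)
  hD : ∀ p, Dn.testBit p = true ↔ (p / 16 ≤ K ∧ p % 16 ≤ K ∧ Dp l (p / 16) (p % 16))
  hT : ∀ p, Tn.testBit p = true ↔ (p / 16 ≤ K ∧ p % 16 ≤ K ∧ Tp l (p / 16) (p % 16))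

lemma kap_spec {l : List ℕ} {K Dn Tn : ℕ} (h : R l K Dn Tn) (hK : K ≤ 14) {c : ℕ} (hc : c ≤ K) :
    c < kap K Tn c ∧ kap K Tn c ≤ K + 1 ∧ ∀ i ≤ K, (Tp l c i ↔ kap K Tn c ≤ i) := by
  classical
  have hex : ∃ i, i = K + 1 ∨ Tp l c i := ⟨K + 1, Or.inl rfl⟩
  set t := Nat.find hex with ht
  have ht1 : t ≤ K + 1 := Nat.find_min' hex (Or.inl rfl)
  have ht2 : ∀ i ≤ K, (Tp l c i ↔ t ≤ i) := by
    intro i hi
    constructor
    · intro h1; exact Nat.find_min' hex (Or.inr h1)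
    · intro h1
      rcases Nat.find_spec hex with h2 | h2
      · rw [← ht] at h2; omega
      · exact Tp_mono h1 h2
  have hcomp : Nat.xor (Nat.sub (Nat.shiftLeft (nat_lit 2) K) (nat_lit 1))
      (Nat.land (Nat.shiftRight Tn (sh4 c)) (nat_lit 65535)) = 2 ^ t - 1 := by
    apply Nat.eq_of_testBit_eq
    intro i
    have e1 : Nat.sub (Nat.shiftLeft (nat_lit 2) K) (nat_lit 1) = 2 ^ (K + 1) - 1 := by
      rw [shl_eq, Nat.shiftLeft_eq, sub_eq']
      show 2 * 2 ^ K - 1 = _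
      rw [pow_succ]; ring_nf
    have e2 : (nat_lit 65535 : ℕ) = 2 ^ 16 - 1 := by decide +kernel
    rw [e1, e2, xor_eq, land_eq, shr_eq, sh4_eq, Nat.testBit_xor, Nat.testBit_and, Nat.testBit_shiftRight,
      Nat.testBit_two_pow_sub_one, Nat.testBit_two_pow_sub_one, Nat.testBit_two_pow_sub_one]
    by_cases hi : i < 16
    · have h3 := h.hT (16 * c + i)
      rw [show (16 * c + i) / 16 = c by omega, show (16 * c + i) % 16 = i by omega] at h3
      by_cases hiK : i ≤ K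
      · have h4 : Tn.testBit (16 * c + i) = decide (t ≤ i) := by
          rw [Bool.eq_iff_iff, h3, ht2 i hiK]
          simp [hc, hiK]
        rw [h4]
        by_cases h5 : t ≤ i
        · simp [h5, hi, show i < K + 1 by omega]
        · simp [h5, show i < K + 1 by omega]; omega
      · have h4 : Tn.testBit (16 * c + i) = false := by
          by_contra hcon
          rw [Bool.not_eq_false] at hcon
          have := (h3.1 hcon).2.1
          omega
        rw [h4]
        simp [show ¬ i < K + 1 by omega, show ¬ i < t by omega]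
    · simp [hi, show ¬ i < K + 1 by omega, show ¬ i < t by omega]
  have hkap : kap K Tn c = t := by
    unfold kap
    rw [hcomp]
    have : Nat.succ (2 ^ t - 1) = 2 ^ t := by
      have := Nat.one_le_two_pow (n := t)
      omega
    rw [this, Nat.log2_two_pow]
  rw [hkap]
  refine ⟨?_, ht1, ht2⟩
  by_contra hcon
  push Not at hcon
  exact Tp_zero hcon ((ht2 t (by omega)).2 le_rfl)

lemma child_hD {l : List ℕ} {K Dn Tn : ℕ} (h : R l K Dn Tn) (hK : K ≤ 14) {s m : ℕ} (hs : s ≤ K)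
    (hl : ∀ x ∈ l, x < m) (k : ℕ) (hk1 : k ≤ K + 1) (p : ℕ) :
    (childD Dn s k).testBit p = true ↔
      (p / 16 ≤ k ∧ p % 16 ≤ k ∧ Dp (ins s m l) (p / 16) (p % 16)) := by
  have hsl : s ≤ l.length := hs.trans h.hK
  obtain ⟨j, i, hi16, rfl⟩ : ∃ j i, i < 16 ∧ p = 16 * j + i :=
    ⟨p / 16, p % 16, Nat.mod_lt _ (by norm_num), by omega⟩
  have e1 : (16 * j + i) / 16 = j := by omega
  have e2 : (16 * j + i) % 16 = i := by omega
  unfold childD
  simp only [land_eq, lor_eq, shl_eq, shr_eq, Nat.testBit_and, Nat.testBit_or, Nat.testBit_shiftLeft,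
    Nat.testBit_shiftRight, bit_lowm (show s < 16 by omega), bit_highm (show s < 16 by omega),
    bit_rowsm, bit_maskm (show k < 16 by omega), sh4_eq, bit_STAIR, Bool.and_eq_true, Bool.or_eq_true,
    decide_eq_true_eq, e1, e2, h.hD]
  by_cases hj : j ≤ k
  swap
  · tauto
  by_cases hi : i ≤ k
  swap
  · tauto
  rcases Nat.lt_or_ge s j with hjs | hjs
  · obtain ⟨j', rfl⟩ : ∃ j', j = j' + 1 := ⟨j - 1, by omega⟩
    have hsj : s ≤ j' := by omega
    have e3 : 16 * s.succ + (16 * (j' + 1) + i - 16 * s.succ) = 16 * (j' + 1) + i := by omega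
    rw [e3, e1, e2]
    have h5 : ¬ (16 * (j' + 1) + i < 16 * s + 16) := by omega
    have h6 : 16 * (j' + 1) + i ≥ 16 * s.succ := by omega
    have h7 : 16 * (j' + 1) + i < 256 := by omega
    rcases Nat.eq_zero_or_pos i with rfl | hi0
    · have := Dp_zero (l := ins s m l) (i := 0) (j := j' + 1) (by omega)
      constructor
      · rintro ⟨(⟨_, h8⟩ | ⟨_, _, h8⟩), _⟩
        · exact absurd h8 h5
        · omega
      · rintro ⟨_, _, h8⟩
        exact absurd h8 this
    · obtain ⟨i', rfl⟩ : ∃ i', i = i' + 1 := ⟨i - 1, by omega⟩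
      have h8 := Dp_ins_3 (m := m) hl hsl hsj (show i' ≤ l.length from (by omega : i' ≤ K).trans h.hK)
      rw [h8]
      constructor
      · rintro ⟨(⟨_, h8⟩ | ⟨_, _, h8⟩), _⟩
        · exact absurd h8 h5
        · exact ⟨hj, hi, by omega⟩
      · rintro ⟨_, _, h8⟩
        exact ⟨Or.inr ⟨h6, h7, by omega⟩, hj, hi⟩
  · have h5 : 16 * j + i < 16 * s + 16 := by omega
    have h6 : ¬ (16 * j + i ≥ 16 * s.succ) := by omega
    have h7 : 16 * j + i < 256 := by omega
    have hjK : j ≤ K := by omega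
    rcases Nat.lt_or_ge s i with his | his
    · obtain ⟨i', rfl⟩ : ∃ i', i = i' + 1 := ⟨i - 1, by omega⟩
      have hsi : s ≤ i' := by omega
      rw [Dp_ins_2 (m := m) hl hsl hsi hjs]
      have e3 : (16 * j + (i' + 1) - 1) / 16 = j := by omega
      have e4 : (16 * j + (i' + 1) - 1) % 16 = i' := by omega
      rw [e3, e4]
      constructor
      · rintro ⟨(⟨(⟨_, _, h8⟩ | ⟨_, ⟨_, _, h8⟩, _, _⟩), _⟩ | ⟨h8, _⟩), _⟩
        · omega
        · exact ⟨hj, hi, h8⟩
        · exact absurd h8 h6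
      · rintro ⟨_, _, h8⟩
        exact ⟨Or.inl ⟨Or.inr ⟨by omega, ⟨hjK, by omega, h8⟩, by omega, hsi⟩, h5⟩, hj, hi⟩
    · rw [Dp_ins_1 (m := m) hsl his hjs]
      constructor
      · rintro ⟨(⟨(⟨⟨_, _, h8⟩, _, _⟩ | ⟨h9, ⟨_, h10, _⟩, _, h8⟩), _⟩ | ⟨h8, _⟩), _⟩
        · exact ⟨hj, hi, h8⟩
        · exfalso
          omega
        · exact absurd h8 h6
      · rintro ⟨_, _, h8⟩
        exact ⟨Or.inl ⟨Or.inl ⟨⟨hjK, by omega, h8⟩, h7, his⟩, h5⟩, hj, hi⟩

lemma child_hT {l : List ℕ} {K Dn Tn : ℕ} (h : R l K Dn Tn) (hK : K ≤ 14) {s m : ℕ} (hs : s ≤ K)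
    (hl : ∀ x ∈ l, x < m) (k : ℕ) (hk1 : k ≤ K + 1) (p : ℕ) :
    (childT Dn Tn s k).testBit p = true ↔
      (p / 16 ≤ k ∧ p % 16 ≤ k ∧ Tp (ins s m l) (p / 16) (p % 16)) := by
  have hsl : s ≤ l.length := hs.trans h.hK
  obtain ⟨j, i, hi16, rfl⟩ : ∃ j i, i < 16 ∧ p = 16 * j + i :=
    ⟨p / 16, p % 16, Nat.mod_lt _ (by norm_num), by omega⟩
  have e1 : (16 * j + i) / 16 = j := by omega
  have e2 : (16 * j + i) % 16 = i := by omega
  have hb : (((Dn >>> s) &&& REP) * (65536 - 2 <<< s)).testBit (16 * j + i) = true ↔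
      (j ≤ K ∧ Dp l j s ∧ 16 * j < 256 ∧ s < i) := by
    rw [bit_bcast _ _ (by
        have : 0 < 2 <<< s := by rw [Nat.shiftLeft_eq]; positivity
        omega) (by
        intro q hq
        rw [Nat.testBit_and, bit_REP] at hq
        simp only [Bool.and_eq_true, decide_eq_true_eq] at hq
        exact hq.2.2), e1, e2, bit_sub_shift s (by omega) i hi16, Nat.testBit_and, bit_REP,
      Nat.testBit_shiftRight]
    simp only [Bool.and_eq_true, decide_eq_true_eq, h.hD]
    rw [show (s + 16 * j) / 16 = j by omega, show (s + 16 * j) % 16 = s by omega]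
    constructor
    · rintro ⟨⟨⟨h1, h2, h3⟩, h4, h5⟩, h6⟩
      exact ⟨h1, h3, h4, h6⟩
    · rintro ⟨h1, h3, h4, h6⟩
      exact ⟨⟨⟨h1, hs, h3⟩, h4, by omega⟩, h6⟩
  have hb' : (Nat.mul (Nat.land (Nat.shiftRight Dn s) REP) (Nat.sub (nat_lit 65536)
      (Nat.shiftLeft (nat_lit 2) s))).testBit (16 * j + i) = true ↔
      (j ≤ K ∧ Dp l j s ∧ 16 * j < 256 ∧ s < i) := hb
  unfold childT
  generalize (Nat.mul (Nat.land (Nat.shiftRight Dn s) REP) (Nat.sub (nat_lit 65536)
      (Nat.shiftLeft (nat_lit 2) s))) = B at hb' ⊢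
  simp only [land_eq, lor_eq, shl_eq, shr_eq, Nat.testBit_and, Nat.testBit_or,
    Nat.testBit_shiftLeft, bit_lowm (show s < 16 by omega), bit_highm (show s < 16 by omega),
    bit_rowsm, bit_maskm (show k < 16 by omega), sh4_eq, Bool.and_eq_true, Bool.or_eq_true,
    decide_eq_true_eq, e1, e2, h.hT, hb', add_eq', Nat.testBit_shiftRight]
  by_cases hj : j ≤ k
  swap
  · tauto
  by_cases hi : i ≤ k
  swap
  · tauto
  rcases Nat.lt_or_ge s j with hjs | hjs
  · obtain ⟨j', rfl⟩ : ∃ j', j = j' + 1 := ⟨j - 1, by omega⟩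
    have hsj : s ≤ j' := by omega
    have h5 : ¬ (16 * (j' + 1) + i < 16 * s + 16) := by omega
    rcases Nat.eq_zero_or_pos i with rfl | hi0
    · have h0 := Tp_zero (l := ins s m l) (i := 0) (j := j' + 1) (by omega)
      constructor
      · rintro ⟨(⟨_, h8⟩ | ⟨h9, _, h8, _⟩), _⟩
        · exact absurd h8 h5
        · exfalso
          omega
      · rintro ⟨_, _, h8⟩
        exact absurd h8 h0
    · obtain ⟨i', rfl⟩ : ∃ i', i = i' + 1 := ⟨i - 1, by omega⟩
      have h6 : 16 * (j' + 1) + (i' + 1) ≥ 16 * s.succ + 1 := by omega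
      have e3 : (16 * s + (16 * (j' + 1) + (i' + 1) - (16 * s.succ + 1))) / 16 = j' := by omega
      have e4 : (16 * s + (16 * (j' + 1) + (i' + 1) - (16 * s.succ + 1))) % 16 = i' := by omega
      rw [e3, e4]
      have h8 : Tp (ins s m l) (j' + 1) (i' + 1) ↔ Tp l j' i' := by
        rcases Nat.lt_or_ge i' s with h9 | h9
        · constructor
          · intro h10; exact absurd h10 (Tp_zero (by omega))
          · intro h10; exact absurd h10 (Tp_zero (by omega))
        · exact Tp_ins_3 (m := m) hl hsl h9 hsj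
      rw [h8]
      constructor
      · rintro ⟨(⟨_, h8⟩ | ⟨_, _, _, h8⟩), _⟩
        · exact absurd h8 h5
        · exact ⟨hj, hi, h8⟩
      · rintro ⟨_, _, h8⟩
        exact ⟨Or.inr ⟨h6, by omega, by omega, h8⟩, hj, hi⟩
  · have h5 : 16 * j + i < 16 * s + 16 := by omega
    have h6 : ¬ (16 * j + i ≥ 16 * s.succ + 1) := by omega
    have h7 : 16 * j + i < 256 := by omega
    have hjK : j ≤ K := by omega
    rcases Nat.lt_or_ge s i with his | his
    · obtain ⟨i', rfl⟩ : ∃ i', i = i' + 1 := ⟨i - 1, by omega⟩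
      have hsi : s ≤ i' := by omega
      rw [Tp_ins_2 (m := m) hl hsl hsi hjs]
      have e3 : (16 * j + (i' + 1) - 1) / 16 = j := by omega
      have e4 : (16 * j + (i' + 1) - 1) % 16 = i' := by omega
      rw [e3, e4]
      constructor
      · rintro ⟨(⟨((⟨_, _, h8⟩ | ⟨_, ⟨_, _, h8⟩, _, _⟩) | ⟨_, h8, _, _⟩), _⟩ | ⟨h8, _⟩), _⟩
        · omega
        · exact ⟨hj, hi, Or.inl h8⟩
        · exact ⟨hj, hi, Or.inr h8⟩
        · exact absurd h8 h6
      · rintro ⟨_, _, (h8 | h8)⟩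
        · exact ⟨Or.inl ⟨Or.inl (Or.inr ⟨by omega, ⟨hjK, by omega, h8⟩, by omega, hsi⟩), h5⟩, hj, hi⟩
        · exact ⟨Or.inl ⟨Or.inr ⟨hjK, h8, by omega, his⟩, h5⟩, hj, hi⟩
    · rw [Tp_ins_1 (m := m) hsl his hjs]
      constructor
      · rintro ⟨(⟨((⟨⟨_, _, h8⟩, _, _⟩ | ⟨h9, ⟨_, h10, _⟩, _, h8⟩) | ⟨_, _, _, h8⟩), _⟩ | ⟨h8, _⟩), _⟩
        · exact ⟨hj, hi, h8⟩
        · exfalso
          omega
        · omega
        · exact absurd h8 h6
      · rintro ⟨_, _, h8⟩
        exact ⟨Or.inl ⟨Or.inl (Or.inl ⟨⟨hjK, by omega, h8⟩, h7, his⟩), h5⟩, hj, hi⟩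

/-- the state of the new word -/
lemma R_child {l : List ℕ} {K Dn Tn : ℕ} (h : R l K Dn Tn) (hK : K ≤ 14) {s m : ℕ} (hs : s ≤ K)
    (hl : ∀ x ∈ l, x < m) :
    R (ins s m l) (kap K Tn s) (childD Dn s (kap K Tn s)) (childT Dn Tn s (kap K Tn s)) := by
  obtain ⟨h1, h2, h3⟩ := kap_spec h hK hs
  have hsl : s ≤ l.length := hs.trans h.hK
  refine ⟨?_, ?_, fun p => child_hD h hK hs hl _ h2 p, fun p => child_hT h hK hs hl _ h2 p⟩
  · rw [length_ins]
    have := h.hK
    omega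
  · intro i hi
    rw [length_ins] at hi
    rcases Nat.lt_or_ge s i with his | his
    · obtain ⟨i', rfl⟩ : ∃ i', i = i' + 1 := ⟨i - 1, by omega⟩
      rw [C4_take_ins hl hsl (by omega), h.hC i' (by omega)]
      rcases Nat.lt_or_ge K i' with hKi | hKi
      · constructor
        · intro _; omega
        · intro _; exact Or.inl hKi
      · rw [h3 i' hKi]
        constructor
        · rintro (h4 | h4) <;> omega
        · intro h4; right; omega
    · rw [take_ins_le hsl his, h.hC i (by omega)]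
      constructor <;> intro h4 <;> omega

end Pool.Agent.T9h76.EW
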