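import Pool.Agent.T9h76.EW.Lvl

/-! The number of words of length 14 without `24135` is odd. -/

set_option autoImplicit false

namespace Pool.Agent.T9h76.EW

lemma X_of_beq {L : List ℕ} {r : ℕ} (h : Nat.beq (X3 L) r = true) : X 3 L = r := by
  rw [← X3_eq]
  exact Nat.eq_of_beq_eq_true h

lemma C01_X : X 3 C01 = nat_lit 1 := X_of_beq C01_val
lemma C02_X : X 3 C02 = nat_lit 1 := X_of_beq C02_val
lemma C03_X : X 3 C03 = nat_lit 1 := X_of_beq C03_val
lemma C04_X : X 3 C04 = nat_lit 0 := X_of_beq C04_val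
lemma C05_X : X 3 C05 = nat_lit 1 := X_of_beq C05_val
lemma C06_X : X 3 C06 = nat_lit 0 := X_of_beq C06_val
lemma C07_X : X 3 C07 = nat_lit 0 := X_of_beq C07_val
lemma C08_X : X 3 C08 = nat_lit 0 := X_of_beq C08_val
lemma C09_X : X 3 C09 = nat_lit 1 := X_of_beq C09_val
lemma C10_X : X 3 C10 = nat_lit 1 := X_of_beq C10_val
lemma C11_X : X 3 C11 = nat_lit 0 := X_of_beq C11_val
lemma C12_X : X 3 C12 = nat_lit 1 := X_of_beq C12_val

lemma X_C : X 3 C = 1 := by
  unfold C
  rw [X_append, X_append, X_append, X_append, X_append, X_append, X_append, X_append, X_append, X_append, X_append, C01_X, C02_X, C03_X, C04_X, C05_X, C06_X, C07_X, C08_X, C09_X, C10_X, C11_X, C12_X]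
  decide

theorem G_top : G 12 0 0 0 = 1 := by
  have h0 : GC 12 (nat_lit 0) = G 12 0 0 0 := by
    unfold GC
    have e1 : gK (nat_lit 0) = 0 := by decide +kernel
    have e2 : gD (nat_lit 0) = 0 := by decide +kernel
    have e3 : gT (nat_lit 0) = 0 := by decide +kernel
    rw [e1, e2, e3]
  have h1 : G 12 0 0 0 = X 12 [nat_lit 0] := by
    rw [X, X, Nat.xor_zero, h0]
  have h2 : ∀ L, X 12 L = X 3 (lvl (lvl (lvl (lvl (lvl (lvl (lvl (lvl (lvl L))))))))) := by
    intro L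
    rw [X_lvl, X_lvl, X_lvl, X_lvl, X_lvl, X_lvl, X_lvl, X_lvl, X_lvl]
  rw [h1, h2, eq_of_leq lvl9, X_C]

end Pool.Agent.T9h76.EW
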