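import Mathlib

/-!
# Even-Wilf-equivalence: the generating tree of the permutations avoiding `24135`

Words are lists of natural numbers. A new maximum `m` is inserted into a word; the new word contains
`24135` iff the old one does or the part before `m` contains `2413`.
-/

set_option autoImplicit false

namespace Pool.Agent.T9h76.EW

/-- the word contains `2413` -/
def C4 (l : List ℕ) : Prop := ∃ a b c d, [a, b, c, d].Sublist l ∧ c < a ∧ a < d ∧ d < b

/-- the word contains `24135` -/
def C5 (l : List ℕ) : Prop := ∃ a b c d e, [a, b, c, d, e].Sublist l ∧ c < a ∧ a < d ∧ d < b ∧ b < e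

/-- among the first `i` letters there is a descent across the gap `j` -/
def Dp (l : List ℕ) (j i : ℕ) : Prop := ∃ a ∈ l.take j, ∃ c ∈ (l.take i).drop j, c < a

/-- among the first `i` letters there is a `213` whose `2` is before and whose `1` is after gap `j` -/
def Tp (l : List ℕ) (j i : ℕ) : Prop :=
  ∃ a ∈ l.take j, ∃ c d, [c, d].Sublist ((l.take i).drop j) ∧ c < a ∧ a < d

/-- insertion of `m` at the gap `s` -/
def ins (s m : ℕ) (l : List ℕ) : List ℕ := l.take s ++ m :: l.drop s

lemma sub_ins {m : ℕ} {L X Y : List ℕ} : L.Sublist (X ++ m :: Y) ↔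
    L.Sublist (X ++ Y) ∨ ∃ L1 L2, L = L1 ++ m :: L2 ∧ L1.Sublist X ∧ L2.Sublist Y := by
  constructor
  · intro h
    obtain ⟨P, Q, rfl, hP, hQ⟩ := List.sublist_append_iff.1 h
    rcases List.sublist_cons_iff.1 hQ with h1 | ⟨r, rfl, hr⟩
    · exact Or.inl (hP.append h1)
    · exact Or.inr ⟨P, r, rfl, hP, hr⟩
  · rintro (h | ⟨L1, L2, rfl, h1, h2⟩)
    · exact h.trans ((List.Sublist.refl X).append (List.sublist_cons_self m Y))
    · exact h1.append (h2.cons_cons m)

lemma mem_of_sub {L X : List ℕ} (h : L.Sublist X) {a : ℕ} (ha : a ∈ L) : a ∈ X := h.subset ha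

lemma C4_ins {m : ℕ} {X Y : List ℕ} (hX : ∀ x ∈ X, x < m) (hY : ∀ x ∈ Y, x < m) :
    C4 (X ++ m :: Y) ↔ C4 (X ++ Y) ∨ ∃ a ∈ X, ∃ c d, [c, d].Sublist Y ∧ c < a ∧ a < d := by
  constructor
  · rintro ⟨a, b, c, d, h, h1, h2, h3⟩
    rcases sub_ins.1 h with h | ⟨L1, L2, he, hL1, hL2⟩
    · exact Or.inl ⟨a, b, c, d, h, h1, h2, h3⟩
    · match L1, he, hL1 with
      | [], he, hL1 =>
        simp only [List.nil_append, List.cons.injEq] at he
        obtain ⟨rfl, rfl⟩ := he
        have := hY d (mem_of_sub hL2 (by simp))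
        omega
      | [x], he, hL1 =>
        simp only [List.cons_append, List.nil_append, List.cons.injEq] at he
        obtain ⟨rfl, rfl, rfl⟩ := he
        exact Or.inr ⟨a, mem_of_sub hL1 (by simp), c, d, hL2, h1, h2⟩
      | [x, y], he, hL1 =>
        simp only [List.cons_append, List.nil_append, List.cons.injEq] at he
        obtain ⟨rfl, rfl, rfl, rfl⟩ := he
        have := hX a (mem_of_sub hL1 (by simp))
        omega
      | [x, y, z], he, hL1 =>
        simp only [List.cons_append, List.nil_append, List.cons.injEq] at he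
        obtain ⟨rfl, rfl, rfl, rfl, _⟩ := he
        have := hX b (mem_of_sub hL1 (by simp))
        omega
      | x :: y :: z :: w :: r, he, hL1 =>
        have := congrArg List.length he
        simp at this
  · rintro (⟨a, b, c, d, h, h1⟩ | ⟨a, ha, c, d, h, h1, h2⟩)
    · exact ⟨a, b, c, d, sub_ins.2 (Or.inl h), h1⟩
    · refine ⟨a, m, c, d, sub_ins.2 (Or.inr ⟨[a], [c, d], rfl, ?_, h⟩), h1, h2, ?_⟩
      · simpa using ha
      · exact hY d (mem_of_sub h (by simp))

lemma C5_ins {m : ℕ} {X Y : List ℕ} (hX : ∀ x ∈ X, x < m) (hY : ∀ x ∈ Y, x < m) :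
    C5 (X ++ m :: Y) ↔ C5 (X ++ Y) ∨ C4 X := by
  constructor
  · rintro ⟨a, b, c, d, e, h, h1, h2, h3, h4⟩
    rcases sub_ins.1 h with h | ⟨L1, L2, he, hL1, hL2⟩
    · exact Or.inl ⟨a, b, c, d, e, h, h1, h2, h3, h4⟩
    · match L1, he, hL1 with
      | [], he, hL1 =>
        simp only [List.nil_append, List.cons.injEq] at he
        obtain ⟨rfl, rfl⟩ := he
        have := hY e (mem_of_sub hL2 (by simp))
        omega
      | [x], he, hL1 =>
        simp only [List.cons_append, List.nil_append, List.cons.injEq] at he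
        obtain ⟨rfl, rfl, rfl⟩ := he
        have := hY e (mem_of_sub hL2 (by simp))
        omega
      | [x, y], he, hL1 =>
        simp only [List.cons_append, List.nil_append, List.cons.injEq] at he
        obtain ⟨rfl, rfl, rfl, rfl⟩ := he
        have := hY e (mem_of_sub hL2 (by simp))
        omega
      | [x, y, z], he, hL1 =>
        simp only [List.cons_append, List.nil_append, List.cons.injEq] at he
        obtain ⟨rfl, rfl, rfl, rfl, rfl⟩ := he
        have := hY e (mem_of_sub hL2 (by simp))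
        omega
      | [x, y, z, w], he, hL1 =>
        simp only [List.cons_append, List.nil_append, List.cons.injEq] at he
        obtain ⟨rfl, rfl, rfl, rfl, rfl, _⟩ := he
        exact Or.inr ⟨a, b, c, d, hL1, h1, h2, h3⟩
      | x :: y :: z :: w :: u :: r, he, hL1 =>
        have := congrArg List.length he
        simp at this
  · rintro (⟨a, b, c, d, e, h, h1⟩ | ⟨a, b, c, d, h, h1, h2, h3⟩)
    · exact ⟨a, b, c, d, e, sub_ins.2 (Or.inl h), h1⟩
    · refine ⟨a, b, c, d, m, sub_ins.2 (Or.inr ⟨[a, b, c, d], [], rfl, h, List.nil_sublist _⟩), h1, h2, h3, ?_⟩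
      exact hX b (mem_of_sub h (by simp))

lemma C5_ins' {m s : ℕ} {l : List ℕ} (hl : ∀ x ∈ l, x < m) :
    C5 (ins s m l) ↔ C5 l ∨ C4 (l.take s) := by
  unfold ins
  rw [C5_ins (fun x hx => hl x (List.mem_of_mem_take hx)) (fun x hx => hl x (List.mem_of_mem_drop hx)),
    List.take_append_drop]

lemma lt_ins {m s : ℕ} {l : List ℕ} (hl : ∀ x ∈ l, x < m) : ∀ x ∈ ins s m l, x < m + 1 := by
  intro x hx
  unfold ins at hx
  simp only [List.mem_append, List.mem_cons] at hx
  rcases hx with h | h | h
  · have := hl x (List.mem_of_mem_take h); omega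
  · omega
  · have := hl x (List.mem_of_mem_drop h); omega

lemma length_ins {m s : ℕ} {l : List ℕ} : (ins s m l).length = l.length + 1 := by
  unfold ins
  rw [List.length_append, List.length_cons, List.length_take, List.length_drop]
  omega

lemma take_ins_le {m s i : ℕ} {l : List ℕ} (hs : s ≤ l.length) (hi : i ≤ s) :
    (ins s m l).take i = l.take i := by
  unfold ins
  rw [List.take_append_of_le_length (by rw [List.length_take]; omega), List.take_take]
  congr 1
  omega

lemma take_ins_succ {m s i : ℕ} {l : List ℕ} (hs : s ≤ l.length) (hi : s ≤ i) :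
    (ins s m l).take (i + 1) = l.take s ++ m :: (l.take i).drop s := by
  unfold ins
  have h1 : (l.take s).length = s := by rw [List.length_take]; omega
  rw [List.take_append, h1, List.take_of_length_le (by rw [h1]; omega)]
  have h2 : i + 1 - s = (i - s) + 1 := by omega
  rw [h2, List.take_succ_cons, List.drop_take]

lemma take_split {s i : ℕ} {l : List ℕ} (hi : s ≤ i) : l.take s ++ (l.take i).drop s = l.take i := by
  have h : l.take s = (l.take i).take s := by
    rw [List.take_take]; congr 1; omega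
  rw [h, List.take_append_drop]

/-- `2413` in the prefixes of the new word -/
lemma C4_take_ins {m s i : ℕ} {l : List ℕ} (hl : ∀ x ∈ l, x < m) (hs : s ≤ l.length) (hi : s ≤ i) :
    C4 ((ins s m l).take (i + 1)) ↔ C4 (l.take i) ∨ Tp l s i := by
  rw [take_ins_succ hs hi, C4_ins, take_split hi]
  · rfl
  · intro x hx; exact hl x (List.mem_of_mem_take hx)
  · intro x hx; exact hl x (List.mem_of_mem_take (List.mem_of_mem_drop hx))

lemma drop_ins_le {m s i j : ℕ} {l : List ℕ} (hs : s ≤ l.length) (hi : s ≤ i) (hj : j ≤ s) :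
    ((ins s m l).take (i + 1)).drop j = (l.take s).drop j ++ m :: (l.take i).drop s := by
  rw [take_ins_succ hs hi, List.drop_append_of_le_length]
  rw [List.length_take]; omega

lemma drop_ins_gt {m s i j : ℕ} {l : List ℕ} (hs : s ≤ l.length) (hi : s ≤ i) (hj : s ≤ j) :
    ((ins s m l).take (i + 1)).drop (j + 1) = (l.take i).drop j := by
  rw [take_ins_succ hs hi]
  have h1 : (l.take s).length = s := by rw [List.length_take]; omega
  rw [List.drop_append, h1, List.drop_of_length_le (by rw [h1]; omega), List.nil_append]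
  have h2 : j + 1 - s = (j - s) + 1 := by omega
  rw [h2, List.drop_succ_cons, List.drop_drop]
  congr 1
  omega

lemma drop_split {s i j : ℕ} {l : List ℕ} (hi : s ≤ i) (hj : j ≤ s) (hs : s ≤ l.length) :
    (l.take s).drop j ++ (l.take i).drop s = (l.take i).drop j := by
  conv_rhs => rw [← take_split (l := l) hi]
  rw [List.drop_append_of_le_length]
  rw [List.length_take]; omega

lemma Dp_ins_1 {m s i j : ℕ} {l : List ℕ} (hs : s ≤ l.length) (hi : i ≤ s) (hj : j ≤ s) :
    Dp (ins s m l) j i ↔ Dp l j i := by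
  unfold Dp
  rw [take_ins_le hs hi, take_ins_le hs hj]

lemma Dp_ins_2 {m s i j : ℕ} {l : List ℕ} (hl : ∀ x ∈ l, x < m) (hs : s ≤ l.length) (hi : s ≤ i)
    (hj : j ≤ s) : Dp (ins s m l) j (i + 1) ↔ Dp l j i := by
  unfold Dp
  rw [take_ins_le hs hj, drop_ins_le hs hi hj, ← drop_split hi hj hs]
  constructor
  · rintro ⟨a, ha, c, hc, hca⟩
    have h1 := hl a (List.mem_of_mem_take ha)
    simp only [List.mem_append, List.mem_cons] at hc
    refine ⟨a, ha, c, ?_, hca⟩
    rw [List.mem_append]
    rcases hc with h | h | h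
    · exact Or.inl h
    · omega
    · exact Or.inr h
  · rintro ⟨a, ha, c, hc, hca⟩
    refine ⟨a, ha, c, ?_, hca⟩
    simp only [List.mem_append, List.mem_cons]
    rw [List.mem_append] at hc
    tauto

lemma Dp_ins_3 {m s i j : ℕ} {l : List ℕ} (hl : ∀ x ∈ l, x < m) (hs : s ≤ l.length) (hj : s ≤ j)
    (hi : i ≤ l.length) : Dp (ins s m l) (j + 1) (i + 1) ↔ j < i := by
  unfold Dp
  by_cases hsi : s ≤ i
  · rw [drop_ins_gt hs hsi hj, take_ins_succ hs hj]
    constructor
    · rintro ⟨a, ha, c, hc, hca⟩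
      by_contra hcon
      rw [List.drop_of_length_le] at hc
      · simp at hc
      · rw [List.length_take]; omega
    · intro hji
      have hne : (l.take i).drop j ≠ [] := by
        intro h
        have := congrArg List.length h
        rw [List.length_drop, List.length_take] at this
        simp at this
        omega
      obtain ⟨c, hc⟩ := List.exists_mem_of_ne_nil _ hne
      refine ⟨m, by simp, c, hc, hl c (List.mem_of_mem_take (List.mem_of_mem_drop hc))⟩
  · constructor
    · rintro ⟨a, ha, c, hc, hca⟩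
      rw [List.drop_of_length_le] at hc
      · simp at hc
      · rw [List.length_take]; omega
    · intro h; omega

lemma Tp_ins_1 {m s i j : ℕ} {l : List ℕ} (hs : s ≤ l.length) (hi : i ≤ s) (hj : j ≤ s) :
    Tp (ins s m l) j i ↔ Tp l j i := by
  unfold Tp
  rw [take_ins_le hs hi, take_ins_le hs hj]

lemma Tp_ins_2 {m s i j : ℕ} {l : List ℕ} (hl : ∀ x ∈ l, x < m) (hs : s ≤ l.length) (hi : s ≤ i)
    (hj : j ≤ s) : Tp (ins s m l) j (i + 1) ↔ Tp l j i ∨ Dp l j s := by
  unfold Tp Dp
  rw [take_ins_le hs hj, drop_ins_le hs hi hj, ← drop_split hi hj hs]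
  constructor
  · rintro ⟨a, ha, c, d, hcd, h1, h2⟩
    have h3 := hl a (List.mem_of_mem_take ha)
    rcases sub_ins.1 hcd with h | ⟨L1, L2, he, hL1, hL2⟩
    · exact Or.inl ⟨a, ha, c, d, h, h1, h2⟩
    · match L1, he, hL1 with
      | [], he, hL1 =>
        simp only [List.nil_append, List.cons.injEq] at he
        obtain ⟨rfl, rfl⟩ := he
        omega
      | [x], he, hL1 =>
        simp only [List.cons_append, List.nil_append, List.cons.injEq] at he
        obtain ⟨rfl, rfl, _⟩ := he
        exact Or.inr ⟨a, ha, c, mem_of_sub hL1 (by simp), h1⟩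
      | x :: y :: r, he, hL1 =>
        have := congrArg List.length he
        simp at this
  · rintro (⟨a, ha, c, d, hcd, h1, h2⟩ | ⟨a, ha, c, hc, hca⟩)
    · exact ⟨a, ha, c, d, sub_ins.2 (Or.inl hcd), h1, h2⟩
    · refine ⟨a, ha, c, m, sub_ins.2 (Or.inr ⟨[c], [], rfl, by simpa using hc, List.nil_sublist _⟩), hca, ?_⟩
      exact hl a (List.mem_of_mem_take ha)

lemma Tp_ins_3 {m s i j : ℕ} {l : List ℕ} (hl : ∀ x ∈ l, x < m) (hs : s ≤ l.length) (hi : s ≤ i)
    (hj : s ≤ j) : Tp (ins s m l) (j + 1) (i + 1) ↔ Tp l j i := by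
  unfold Tp
  rw [drop_ins_gt hs hi hj, take_ins_succ hs hj]
  constructor
  · rintro ⟨a, ha, c, d, hcd, h1, h2⟩
    have hd : d < m := hl d (List.mem_of_mem_take (List.mem_of_mem_drop (mem_of_sub hcd (by simp))))
    simp only [List.mem_append, List.mem_cons] at ha
    refine ⟨a, ?_, c, d, hcd, h1, h2⟩
    rw [← take_split hj, List.mem_append]
    rcases ha with h | h | h
    · exact Or.inl h
    · omega
    · exact Or.inr h
  · rintro ⟨a, ha, c, d, hcd, h1, h2⟩
    refine ⟨a, ?_, c, d, hcd, h1, h2⟩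
    rw [← take_split hj, List.mem_append] at ha
    simp only [List.mem_append, List.mem_cons]
    tauto

lemma Dp_zero {l : List ℕ} {i j : ℕ} (h : i ≤ j) : ¬ Dp l j i := by
  rintro ⟨a, ha, c, hc, _⟩
  rw [List.drop_of_length_le] at hc
  · simp at hc
  · rw [List.length_take]; omega

lemma Tp_zero {l : List ℕ} {i j : ℕ} (h : i ≤ j) : ¬ Tp l j i := by
  rintro ⟨a, ha, c, d, hcd, _⟩
  rw [List.drop_of_length_le] at hcd
  · simp at hcd
  · rw [List.length_take]; omega

lemma Tp_mono {l : List ℕ} {j i i' : ℕ} (h : i ≤ i') (hT : Tp l j i) : Tp l j i' := by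
  obtain ⟨a, ha, c, d, hcd, h1, h2⟩ := hT
  refine ⟨a, ha, c, d, hcd.trans ?_, h1, h2⟩
  have : l.take i = (l.take i').take i := by rw [List.take_take]; congr 1; omega
  rw [this]
  exact (List.take_sublist _ _).drop _

/-- number of words without `24135` obtained from `l` by inserting successively the maxima
`m, m + 1, ..., m + k - 1` -/
noncomputable def cnt : ℕ → ℕ → List ℕ → ℕ
  | 0, _, l => by classical exact if C5 l then 0 else 1
  | k + 1, m, l => ∑ s ∈ Finset.range (l.length + 1), cnt k (m + 1) (ins s m l)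

lemma cnt_zero_of_C5 : ∀ (k m : ℕ) (l : List ℕ), (∀ x ∈ l, x < m) → C5 l → cnt k m l = 0
  | 0, _, l, _, h => by simp [cnt, h]
  | k + 1, m, l, hl, h => by
    rw [cnt]
    refine Finset.sum_eq_zero fun s _ => ?_
    exact cnt_zero_of_C5 k (m + 1) _ (lt_ins hl) ((C5_ins' hl).2 (Or.inl h))

end Pool.Agent.T9h76.EW
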